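import Mathlib

/-!
# The lattice of p-summable sequences is not sequentially Buo-complete, for every p > 1

The coordinates are the dyadic intervals of `[0,1]`, grouped in blocks of `2 ^ b` consecutive
levels. During the time of its block the coordinate of an interval of length `2 ^ (-l)` describes a
tent supported on this interval, of height `(2 ^ (-b) * 2 ^ (-l)) ^ (1 / p)`. A time step of length
`g` changes the sum of the `p`-th powers of the block by at most a constant times `2 ^ (-b) * g`,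
because `p > 1`, so the jumps of every subsequence are dominated in the lattice; the heights are
not `p`-summable.
-/

namespace Pool.Agent.Results.MP_55c50e_an.NotBuoComplete

open Finset

/-- `x` is an element of `ℓ_p`: the series of `|x j| ^ p` converges. -/
def IsLp (p : ℝ) (x : ℕ → ℝ) : Prop := Summable fun j => |x j| ^ p

/-- Order convergence in `ℓ_p` of the sequence `d` (`d k j` is the coordinate `j` of the term `k`)
to `x`: there is a decreasing sequence `z` of nonnegative elements of `ℓ_p` with infimum `0` in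
`ℓ_p`, such that for every `m` one has `|d k - x| ≤ z m` for all large `k`. -/
def OrderTendsto (p : ℝ) (d : ℕ → ℕ → ℝ) (x : ℕ → ℝ) : Prop :=
  ∃ z : ℕ → ℕ → ℝ, (∀ m, IsLp p (z m)) ∧ (∀ m j, 0 ≤ z m j) ∧ (∀ m j, z (m + 1) j ≤ z m j) ∧
    (∀ w : ℕ → ℝ, IsLp p w → (∀ m j, w j ≤ z m j) → ∀ j, w j ≤ 0) ∧
    ∀ m, ∃ N, ∀ k, N ≤ k → ∀ j, |d k j - x j| ≤ z m j

/-- The sequence `x` is Buo-Cauchy: for all strictly increasing indices `n k` the differences
`x (n (k + 1)) - x (n k)` converge in order to `0`. -/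
def BuoCauchy (p : ℝ) (x : ℕ → ℕ → ℝ) : Prop :=
  ∀ n : ℕ → ℕ, StrictMono n → OrderTendsto p (fun k j => x (n (k + 1)) j - x (n k) j) (fun _ => 0)

/-- The tent function. -/
noncomputable def tent (s : ℝ) : ℝ := max 0 (1 - |2 * s - 1|)

lemma tent_nonneg (s : ℝ) : 0 ≤ tent s := le_max_left _ _

lemma tent_le_one (s : ℝ) : tent s ≤ 1 := by
  unfold tent
  apply max_le (by norm_num)
  have := abs_nonneg (2 * s - 1)
  linarith

lemma tent_of_le {s : ℝ} (h : s ≤ 0) : tent s = 0 := by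
  unfold tent
  apply max_eq_left
  have := neg_abs_le (2 * s - 1)
  linarith

lemma tent_of_ge {s : ℝ} (h : 1 ≤ s) : tent s = 0 := by
  unfold tent
  apply max_eq_left
  have := le_abs_self (2 * s - 1)
  linarith

lemma tent_half : tent (1 / 2) = 1 := by
  unfold tent
  norm_num

lemma tent_lip (s t : ℝ) : |tent s - tent t| ≤ 2 * |s - t| := by
  unfold tent
  have h1 : |max 0 (1 - |2 * s - 1|) - max 0 (1 - |2 * t - 1|)|
      ≤ |(1 - |2 * s - 1|) - (1 - |2 * t - 1|)| := by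
    have := abs_max_sub_max_le_abs (1 - |2 * s - 1|) (1 - |2 * t - 1|) 0
    rwa [max_comm _ (0:ℝ), max_comm _ (0:ℝ)] at this
  refine h1.trans ?_
  have h2 : (1 - |2 * s - 1|) - (1 - |2 * t - 1|) = |2 * t - 1| - |2 * s - 1| := by ring
  rw [h2]
  refine (abs_abs_sub_abs_le _ _).trans ?_
  have h3 : (2 * t - 1) - (2 * s - 1) = -(2 * (s - t)) := by ring
  rw [h3, abs_neg, abs_mul]
  norm_num

lemma tent_sub_le_one (s t : ℝ) : |tent s - tent t| ≤ 1 := by
  rw [abs_le]
  constructor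
  · have := tent_nonneg s; have := tent_le_one t; linarith
  · have := tent_nonneg t; have := tent_le_one s; linarith

lemma tent_eq_zero_of_floor {u : ℝ} {i : ℕ} (h : (i : ℤ) ≠ ⌊u⌋) : tent (u - i) = 0 := by
  rcases lt_or_gt_of_ne h with h1 | h1
  · apply tent_of_ge
    have : (i : ℤ) + 1 ≤ ⌊u⌋ := h1
    have h2 : ((i : ℤ) + 1 : ℝ) ≤ (⌊u⌋ : ℝ) := by exact_mod_cast this
    have h3 := Int.floor_le u
    push_cast at h2
    linarith
  · apply tent_of_le
    have h2 : u < (i : ℤ) := Int.floor_lt.mp h1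
    push_cast at h2
    linarith

lemma level_sum {p : ℝ} (hp : 1 < p) (R : ℕ) (u v : ℝ) (huv : u ≤ v) :
    ∑ i ∈ range R, |tent (v - i) - tent (u - i)| ^ p ≤ 2 * (min 1 (2 * (v - u))) ^ p := by
  classical
  have hp0 : 0 < p := by linarith
  set S := (range R).filter (fun i : ℕ => (i : ℤ) = ⌊u⌋ ∨ (i : ℤ) = ⌊v⌋) with hS
  have h1 : ∑ i ∈ range R, |tent (v - i) - tent (u - i)| ^ p
      = ∑ i ∈ S, |tent (v - i) - tent (u - i)| ^ p := by
    symm
    apply Finset.sum_subset (Finset.filter_subset _ _)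
    intro i hi hi2
    have h3 : ¬ ((i : ℤ) = ⌊u⌋ ∨ (i : ℤ) = ⌊v⌋) := by
      intro h
      exact hi2 (Finset.mem_filter.mpr ⟨hi, h⟩)
    push Not at h3
    rw [tent_eq_zero_of_floor h3.1, tent_eq_zero_of_floor h3.2]
    simp [Real.zero_rpow hp0.ne']
  have hcard : S.card ≤ 2 := by
    have : S.image (fun i : ℕ => (i : ℤ)) ⊆ {⌊u⌋, ⌊v⌋} := by
      intro z hz
      obtain ⟨i, hi, rfl⟩ := Finset.mem_image.mp hz
      have := (Finset.mem_filter.mp hi).2
      simpa using this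
    have h4 := Finset.card_le_card this
    rw [Finset.card_image_of_injective _ Nat.cast_injective] at h4
    exact h4.trans Finset.card_le_two
  have hterm : ∀ i ∈ S, |tent (v - i) - tent (u - i)| ^ p ≤ (min 1 (2 * (v - u))) ^ p := by
    intro i _
    apply Real.rpow_le_rpow (abs_nonneg _) _ hp0.le
    apply le_min (tent_sub_le_one _ _)
    have := tent_lip (v - i) (u - i)
    have h5 : (v - i) - (u - i) = v - u := by ring
    rw [h5, abs_of_nonneg (by linarith : (0:ℝ) ≤ v - u)] at this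
    exact this
  rw [h1]
  have hm : 0 ≤ (min 1 (2 * (v - u))) ^ p := by
    apply Real.rpow_nonneg
    apply le_min (by norm_num)
    linarith
  calc ∑ i ∈ S, |tent (v - i) - tent (u - i)| ^ p ≤ S.card • (min 1 (2 * (v - u))) ^ p :=
        Finset.sum_le_card_nsmul _ _ _ hterm
    _ ≤ 2 * (min 1 (2 * (v - u))) ^ p := by
        rw [nsmul_eq_mul]
        apply mul_le_mul_of_nonneg_right _ hm
        exact_mod_cast hcard

lemma phi_bound {p : ℝ} (hp : 1 < p) : ∃ K q : ℝ, 0 < K ∧ 0 < q ∧ ∀ u : ℝ, 0 < u →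
    (min 1 u) ^ p ≤ K * u * (1 / (1 + u ^ q) - 1 / (1 + (2 * u) ^ q)) := by
  set q := min (p - 1) 1 with hq
  have hq0 : 0 < q := lt_min (by linarith) (by norm_num)
  have hq1 : q ≤ 1 := min_le_right _ _
  have hqp : q ≤ p - 1 := min_le_left _ _
  set A : ℝ := 2 ^ q with hA
  have hA1 : 1 < A := Real.one_lt_rpow (by norm_num) hq0
  refine ⟨2 * (1 + A) / (A - 1), q, by apply div_pos <;> linarith, hq0, ?_⟩
  intro u hu
  set w : ℝ := u ^ q with hw
  have hw0 : 0 < w := Real.rpow_pos_of_pos hu q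
  have h2u : (2 * u) ^ q = A * w := Real.mul_rpow (by norm_num) hu.le
  rw [h2u]
  have hdiff : 1 / (1 + w) - 1 / (1 + A * w) = (A - 1) * w / ((1 + w) * (1 + A * w)) := by
    have : 0 < 1 + A * w := by positivity
    field_simp
    ring
  rw [hdiff]
  have hrw : 2 * (1 + A) / (A - 1) * u * ((A - 1) * w / ((1 + w) * (1 + A * w)))
      = 2 * (1 + A) * u * w / ((1 + w) * (1 + A * w)) := by
    have : A - 1 ≠ 0 := by linarith
    have : 0 < 1 + A * w := by positivity
    field_simp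
  rw [hrw, le_div_iff₀ (by positivity)]
  rcases le_or_gt u 1 with h1 | h1
  · rw [min_eq_right h1]
    have hw1 : w ≤ 1 := Real.rpow_le_one hu.le h1 hq0.le
    have hup : u ^ p ≤ u * w := by
      have : u ^ p = u * u ^ (p - 1) := by
        rw [← Real.rpow_one_add' hu.le (by linarith)]
        ring_nf
      rw [this]
      apply mul_le_mul_of_nonneg_left _ hu.le
      exact Real.rpow_le_rpow_of_exponent_ge hu h1 hqp
    have hprod : (1 + w) * (1 + A * w) ≤ 2 * (1 + A) := by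
      have hA0 : 0 < A := by linarith
      have h5 : A * w ≤ A * 1 := mul_le_mul_of_nonneg_left hw1 hA0.le
      apply mul_le_mul (by linarith) (by linarith) (by positivity) (by norm_num)
    calc u ^ p * ((1 + w) * (1 + A * w)) ≤ (u * w) * (2 * (1 + A)) := by
          apply mul_le_mul hup hprod (by positivity) (by positivity)
      _ = 2 * (1 + A) * u * w := by ring
  · rw [min_eq_left h1.le, Real.one_rpow, one_mul]
    have hw1 : 1 ≤ w := Real.one_le_rpow h1.le hq0.le
    have hwu : w ≤ u := by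
      calc w = u ^ q := rfl
        _ ≤ u ^ (1:ℝ) := Real.rpow_le_rpow_of_exponent_le h1.le hq1
        _ = u := Real.rpow_one u
    have h3 : (1 + w) * (1 + A * w) ≤ (2 * w) * ((1 + A) * w) := by
      apply mul_le_mul <;> nlinarith
    have h4 : (2 * w) * ((1 + A) * w) ≤ 2 * (1 + A) * u * w := by
      have : 0 ≤ 2 * (1 + A) * w := by positivity
      nlinarith
    linarith

lemma geo {p : ℝ} (hp : 1 < p) : ∃ C : ℝ, 0 < C ∧ ∀ g : ℝ, 0 ≤ g → ∀ M : ℕ,
    ∑ l ∈ range M, (1 / 2 ^ l) * (min 1 (2 ^ (l + 1) * g)) ^ p ≤ C * g := by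
  obtain ⟨K, q, hK, hq, h⟩ := phi_bound hp
  refine ⟨2 * K, by positivity, ?_⟩
  intro g hg M
  rcases hg.eq_or_lt with h0 | h0
  · subst h0
    have : (0:ℝ) ^ p = 0 := Real.zero_rpow (by linarith)
    simp [this]
  have hG : ∀ l : ℕ, (1 / 2 ^ l : ℝ) * (min 1 (2 ^ (l + 1) * g)) ^ p ≤
      2 * K * g * (1 / (1 + (2 ^ (l + 1) * g) ^ q) - 1 / (1 + (2 ^ (l + 1 + 1) * g) ^ q)) := by
    intro l
    have h1 := h (2 ^ (l + 1) * g) (by positivity)
    have h2 : (2:ℝ) * (2 ^ (l + 1) * g) = 2 ^ (l + 1 + 1) * g := by ring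
    rw [h2] at h1
    calc (1 / 2 ^ l : ℝ) * (min 1 (2 ^ (l + 1) * g)) ^ p
        ≤ (1 / 2 ^ l : ℝ) * (K * (2 ^ (l + 1) * g) *
          (1 / (1 + (2 ^ (l + 1) * g) ^ q) - 1 / (1 + (2 ^ (l + 1 + 1) * g) ^ q))) := by
          apply mul_le_mul_of_nonneg_left h1 (by positivity)
      _ = _ := by
          field_simp
          ring
  calc ∑ l ∈ range M, (1 / 2 ^ l : ℝ) * (min 1 (2 ^ (l + 1) * g)) ^ p
      ≤ ∑ l ∈ range M, 2 * K * g * (1 / (1 + (2 ^ (l + 1) * g) ^ q)
          - 1 / (1 + (2 ^ (l + 1 + 1) * g) ^ q)) := Finset.sum_le_sum fun l _ => hG l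
    _ = 2 * K * g * (1 / (1 + (2 ^ (0 + 1) * g) ^ q) - 1 / (1 + (2 ^ (M + 1) * g) ^ q)) := by
        rw [← Finset.mul_sum, Finset.sum_range_sub' (fun l : ℕ => 1 / (1 + ((2:ℝ) ^ (l + 1) * g) ^ q))]
    _ ≤ 2 * K * g * 1 := by
        apply mul_le_mul_of_nonneg_left _ (by positivity)
        have h5 : 0 < ((2:ℝ) ^ (M + 1) * g) ^ q := by positivity
        have h6 : 0 < ((2:ℝ) ^ (0 + 1) * g) ^ q := by positivity
        have h7 : 0 < 1 / (1 + ((2:ℝ) ^ (M + 1) * g) ^ q) := by positivity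
        have h8 : 1 / (1 + ((2:ℝ) ^ (0 + 1) * g) ^ q) ≤ 1 := by
          rw [div_le_one (by positivity)]
          linarith
        linarith
    _ = 2 * K * g := by ring


/-! ### The sequence -/

/-- The block of a level. -/
def bl (l : ℕ) : ℕ := Nat.log 2 (l + 1)

/-- The time scale of a block. -/
def NN (b : ℕ) : ℕ := 2 ^ 2 ^ (b + 1)

/-- The local time of the block. -/
noncomputable def tt (b n : ℕ) : ℝ := max 0 (min 1 ((n : ℝ) / NN b - 1))

/-- The heights. -/
noncomputable def ht (p : ℝ) (l : ℕ) : ℝ := (1 / 2 ^ (bl l) / 2 ^ l : ℝ) ^ (1 / p)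

/-- The level of a coordinate. -/
def lv (j : ℕ) : ℕ := Nat.log 2 j

/-- The sequence. -/
noncomputable def xx (p : ℝ) (n j : ℕ) : ℝ :=
  if j = 0 then 0 else ht p (lv j) * tent (2 ^ (lv j) * tt (bl (lv j)) n - ((j - 2 ^ (lv j) : ℕ) : ℝ))

lemma NN_pos (b : ℕ) : 0 < NN b := by unfold NN; positivity

lemma tt_nonneg (b n : ℕ) : 0 ≤ tt b n := le_max_left _ _

lemma tt_le_one (b n : ℕ) : tt b n ≤ 1 := max_le (by norm_num) (min_le_left _ _)

lemma tt_mono (b : ℕ) {m n : ℕ} (h : m ≤ n) : tt b m ≤ tt b n := by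
  unfold tt
  have : (m : ℝ) / NN b ≤ (n : ℝ) / NN b := by
    apply div_le_div_of_nonneg_right _ (by positivity)
    exact_mod_cast h
  apply max_le_max le_rfl
  apply min_le_min le_rfl
  linarith

lemma tt_zero {b n : ℕ} (h : n ≤ NN b) : tt b n = 0 := by
  unfold tt
  apply max_eq_left
  have h1 : (n : ℝ) / NN b ≤ 1 := by
    rw [div_le_one (by exact_mod_cast NN_pos b)]
    exact_mod_cast h
  exact (min_le_right _ _).trans (by linarith)

lemma tt_one {b n : ℕ} (h : 2 * NN b ≤ n) : tt b n = 1 := by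
  unfold tt
  have h0 : (0:ℝ) < NN b := by exact_mod_cast NN_pos b
  have h1 : (2:ℝ) ≤ (n : ℝ) / NN b := by
    rw [le_div_iff₀ h0]
    exact_mod_cast h
  rw [min_eq_left (by linarith)]
  norm_num

lemma lt_pow_bl (l : ℕ) : l + 1 < 2 ^ (bl l + 1) := Nat.lt_pow_succ_log_self (by norm_num) _

lemma lt_NN (j : ℕ) : j < NN (bl (lv j)) := by
  have h1 : j < 2 ^ (lv j + 1) := Nat.lt_pow_succ_log_self (by norm_num) _
  have h2 : lv j + 1 < 2 ^ (bl (lv j) + 1) := lt_pow_bl _
  unfold NN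
  exact h1.trans (Nat.pow_lt_pow_right (by norm_num) h2)

lemma pow_lv_le {j : ℕ} (hj : j ≠ 0) : 2 ^ lv j ≤ j := Nat.pow_log_le_self 2 hj

lemma lt_pow_lv (j : ℕ) : j < 2 ^ (lv j + 1) := Nat.lt_pow_succ_log_self (by norm_num) _

lemma xx_zero_early {p : ℝ} {n j : ℕ} (h : n ≤ j) : xx p n j = 0 := by
  unfold xx
  split_ifs with h0
  · rfl
  · rw [tt_zero (h.trans (lt_NN j).le), tent_of_le, mul_zero]
    have : (0:ℝ) ≤ ((j - 2 ^ (lv j) : ℕ) : ℝ) := Nat.cast_nonneg _
    linarith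

lemma xx_zero_late {p : ℝ} {n j : ℕ} (h : 2 * NN (bl (lv j)) ≤ n) : xx p n j = 0 := by
  unfold xx
  split_ifs with h0
  · rfl
  · rw [tt_one h, tent_of_ge, mul_zero]
    have h1 : j - 2 ^ lv j + 1 ≤ 2 ^ lv j := by
      have := lt_pow_lv j
      have h2 := pow_lv_le h0
      rw [pow_succ] at this
      omega
    have h3 : (((j - 2 ^ lv j : ℕ) : ℝ)) + 1 ≤ 2 ^ lv j := by exact_mod_cast h1
    linarith

lemma xx_peak {p : ℝ} {j : ℕ} (hj : j ≠ 0) : ∃ n, j ≤ n ∧ xx p n j = ht p (lv j) := by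
  set l := lv j with hl
  set b := bl l with hb
  set i := j - 2 ^ l with hi
  refine ⟨NN b + (2 * i + 1) * 2 ^ (2 ^ (b + 1) - (l + 1)), ?_, ?_⟩
  · have := lt_NN j
    rw [← hl, ← hb] at this
    omega
  · unfold xx
    rw [if_neg hj, ← hl, ← hb, ← hi]
    have hle : l + 1 ≤ 2 ^ (b + 1) := (lt_pow_bl l).le
    have hN : (NN b : ℝ) = 2 ^ (l + 1) * 2 ^ (2 ^ (b + 1) - (l + 1)) := by
      unfold NN
      rw [← pow_add, Nat.add_sub_cancel' hle]
      push_cast
      rfl
    have hP : (0:ℝ) < 2 ^ (2 ^ (b + 1) - (l + 1)) := by positivity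
    have hi1 : i + 1 ≤ 2 ^ l := by
      have := lt_pow_lv j
      have h2 := pow_lv_le hj
      rw [← hl] at this h2
      rw [pow_succ] at this
      omega
    have hi2 : ((i:ℝ)) + 1 ≤ 2 ^ l := by exact_mod_cast hi1
    have hval : ((NN b + (2 * i + 1) * 2 ^ (2 ^ (b + 1) - (l + 1)) : ℕ) : ℝ) / NN b - 1
        = (2 * i + 1) / 2 ^ (l + 1) := by
      push_cast
      rw [hN]
      field_simp
      ring
    have hlow : (0:ℝ) ≤ (2 * i + 1) / 2 ^ (l + 1) := by positivity
    have hupp : (2 * (i:ℝ) + 1) / 2 ^ (l + 1) ≤ 1 := by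
      rw [div_le_one (by positivity), pow_succ]
      linarith
    have htt : tt b (NN b + (2 * i + 1) * 2 ^ (2 ^ (b + 1) - (l + 1))) = (2 * i + 1) / 2 ^ (l + 1) := by
      unfold tt
      rw [hval, min_eq_right hupp, max_eq_right hlow]
    rw [htt]
    have : (2:ℝ) ^ l * ((2 * i + 1) / 2 ^ (l + 1)) - (i:ℝ) = 1 / 2 := by
      rw [pow_succ]
      field_simp
      ring
    rw [this, tent_half, mul_one]

lemma ht_nonneg (p : ℝ) (l : ℕ) : 0 ≤ ht p l := by unfold ht; positivity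

lemma ht_pow {p : ℝ} (hp : 1 < p) (l : ℕ) : (ht p l) ^ p = 1 / 2 ^ (bl l) / 2 ^ l := by
  unfold ht
  rw [← Real.rpow_mul (by positivity)]
  have : 1 / p * p = 1 := by field_simp
  rw [this, Real.rpow_one]

lemma dyadic_sum (g : ℕ → ℝ) (h0 : g 0 = 0) (M : ℕ) :
    ∑ j ∈ range (2 ^ M), g j = ∑ l ∈ range M, ∑ i ∈ range (2 ^ l), g (2 ^ l + i) := by
  induction M with
  | zero => simp [h0]
  | succ M ih =>
    rw [Finset.sum_range_succ, ← ih, pow_succ, mul_two, Finset.sum_range_add]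

lemma lv_add {l i : ℕ} (hi : i < 2 ^ l) : lv (2 ^ l + i) = l := by
  unfold lv
  have hpos : 0 < 2 ^ l := by positivity
  rw [Nat.log_eq_iff (Or.inr ⟨by norm_num, by omega⟩)]
  constructor
  · omega
  · rw [pow_succ]; omega

lemma level_jump {p : ℝ} (hp : 1 < p) (l : ℕ) {m n : ℕ} (h : m ≤ n) :
    ∑ i ∈ range (2 ^ l), |xx p n (2 ^ l + i) - xx p m (2 ^ l + i)| ^ p ≤
      (1 / 2 ^ (bl l)) * (2 * ((1 / 2 ^ l) * (min 1 (2 ^ (l + 1) * (tt (bl l) n - tt (bl l) m))) ^ p)) := by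
  have hterm : ∀ i ∈ range (2 ^ l), |xx p n (2 ^ l + i) - xx p m (2 ^ l + i)| ^ p
      = (1 / 2 ^ (bl l) / 2 ^ l) *
        |tent (2 ^ l * tt (bl l) n - i) - tent (2 ^ l * tt (bl l) m - i)| ^ p := by
    intro i hi
    have hi' := Finset.mem_range.mp hi
    have h0 : 2 ^ l + i ≠ 0 := by positivity
    unfold xx
    rw [if_neg h0, if_neg h0, lv_add hi', Nat.add_sub_cancel_left, ← mul_sub, abs_mul,
      abs_of_nonneg (ht_nonneg p l), Real.mul_rpow (ht_nonneg p l) (abs_nonneg _), ht_pow hp]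
  rw [Finset.sum_congr rfl hterm, ← Finset.mul_sum]
  have hmono := tt_mono (bl l) h
  have h2 := level_sum hp (2 ^ l) (2 ^ l * tt (bl l) m) (2 ^ l * tt (bl l) n)
    (by apply mul_le_mul_of_nonneg_left hmono (by positivity))
  have h3 : (2:ℝ) * (2 ^ l * tt (bl l) n - 2 ^ l * tt (bl l) m)
      = 2 ^ (l + 1) * (tt (bl l) n - tt (bl l) m) := by ring
  rw [h3] at h2
  calc (1 / 2 ^ (bl l) / 2 ^ l) * ∑ i ∈ range (2 ^ l),
        |tent (2 ^ l * tt (bl l) n - i) - tent (2 ^ l * tt (bl l) m - i)| ^ p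
      ≤ (1 / 2 ^ (bl l) / 2 ^ l) * (2 * (min 1 (2 ^ (l + 1) * (tt (bl l) n - tt (bl l) m))) ^ p) :=
        mul_le_mul_of_nonneg_left h2 (by positivity)
    _ = _ := by ring

lemma total_jump {p : ℝ} (hp : 1 < p) : ∃ C : ℝ, 0 < C ∧ ∀ n : ℕ → ℕ, Monotone n → ∀ M K : ℕ,
    ∑ j ∈ range (2 ^ M), ∑ k ∈ range K, |xx p (n (k + 1)) j - xx p (n k) j| ^ p ≤ C := by
  obtain ⟨C, hC, hgeo⟩ := geo hp
  refine ⟨4 * C, by positivity, ?_⟩
  intro n hn M K
  have hp0 : (0:ℝ) < p := by linarith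
  rw [dyadic_sum _ (by simp [xx, Real.zero_rpow hp0.ne']) M]
  have h1 : ∀ l ∈ range M, ∑ i ∈ range (2 ^ l), ∑ k ∈ range K,
      |xx p (n (k + 1)) (2 ^ l + i) - xx p (n k) (2 ^ l + i)| ^ p
      ≤ ∑ k ∈ range K, (1 / 2 ^ (bl l)) * (2 * ((1 / 2 ^ l) *
        (min 1 (2 ^ (l + 1) * (tt (bl l) (n (k + 1)) - tt (bl l) (n k)))) ^ p)) := by
    intro l _
    rw [Finset.sum_comm]
    exact Finset.sum_le_sum fun k _ => level_jump hp l (hn (Nat.le_succ k))
  refine (Finset.sum_le_sum h1).trans ?_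
  have hmaps : ∀ l ∈ range M, bl l ∈ range (M + 1) := by
    intro l hl
    have h2 := Finset.mem_range.mp hl
    have : bl l ≤ l + 1 := Nat.log_le_self 2 (l + 1)
    exact Finset.mem_range.mpr (by omega)
  rw [← Finset.sum_fiberwise_of_maps_to hmaps]
  have h2 : ∀ b ∈ range (M + 1), (∑ l ∈ range M with bl l = b, ∑ k ∈ range K,
      (1 / 2 ^ (bl l) : ℝ) * (2 * ((1 / 2 ^ l) *
        (min 1 (2 ^ (l + 1) * (tt (bl l) (n (k + 1)) - tt (bl l) (n k)))) ^ p)))
      ≤ (1 / 2 ^ b) * (2 * C) := by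
    intro b _
    rw [Finset.sum_comm]
    have h3 : ∀ k ∈ range K, (∑ l ∈ range M with bl l = b,
        (1 / 2 ^ (bl l) : ℝ) * (2 * ((1 / 2 ^ l) *
        (min 1 (2 ^ (l + 1) * (tt (bl l) (n (k + 1)) - tt (bl l) (n k)))) ^ p)))
        ≤ (1 / 2 ^ b) * (2 * (C * (tt b (n (k + 1)) - tt b (n k)))) := by
      intro k _
      have hmono := tt_mono b (hn (Nat.le_succ k))
      have h4 : (∑ l ∈ range M with bl l = b,
          (1 / 2 ^ (bl l) : ℝ) * (2 * ((1 / 2 ^ l) *
          (min 1 (2 ^ (l + 1) * (tt (bl l) (n (k + 1)) - tt (bl l) (n k)))) ^ p)))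
          = ∑ l ∈ range M with bl l = b,
          (1 / 2 ^ b : ℝ) * (2 * ((1 / 2 ^ l) *
          (min 1 (2 ^ (l + 1) * (tt b (n (k + 1)) - tt b (n k)))) ^ p)) := by
        apply Finset.sum_congr rfl
        intro l hl
        rw [(Finset.mem_filter.mp hl).2]
      rw [h4]
      have h5 : ∑ l ∈ range M with bl l = b,
          (1 / 2 ^ b : ℝ) * (2 * ((1 / 2 ^ l) *
          (min 1 (2 ^ (l + 1) * (tt b (n (k + 1)) - tt b (n k)))) ^ p))
          ≤ ∑ l ∈ range M,
          (1 / 2 ^ b : ℝ) * (2 * ((1 / 2 ^ l) *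
          (min 1 (2 ^ (l + 1) * (tt b (n (k + 1)) - tt b (n k)))) ^ p)) := by
        apply Finset.sum_le_sum_of_subset_of_nonneg (Finset.filter_subset _ _)
        intro l _ _
        have h6 : (0:ℝ) ≤ min 1 (2 ^ (l + 1) * (tt b (n (k + 1)) - tt b (n k))) := by
          apply le_min (by norm_num)
          apply mul_nonneg (by positivity)
          linarith
        have := Real.rpow_nonneg h6 p
        positivity
      refine h5.trans ?_
      rw [← Finset.mul_sum, ← Finset.mul_sum]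
      apply mul_le_mul_of_nonneg_left _ (by positivity)
      apply mul_le_mul_of_nonneg_left _ (by positivity)
      exact hgeo _ (by linarith) M
    refine (Finset.sum_le_sum h3).trans ?_
    rw [← Finset.mul_sum, ← Finset.mul_sum, ← Finset.mul_sum]
    apply mul_le_mul_of_nonneg_left _ (by positivity)
    apply mul_le_mul_of_nonneg_left _ (by positivity)
    rw [Finset.sum_range_sub (fun k => tt b (n k))]
    have h7 := tt_le_one b (n K)
    have h8 := tt_nonneg b (n 0)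
    have h9 : C * (tt b (n K) - tt b (n 0)) ≤ C * 1 := by
      apply mul_le_mul_of_nonneg_left _ hC.le
      linarith
    linarith
  refine (Finset.sum_le_sum h2).trans ?_
  rw [← Finset.sum_mul]
  have hgs : ∑ b ∈ range (M + 1), (1 / 2 ^ b : ℝ) ≤ 2 := by
    have : ∀ B : ℕ, ∑ b ∈ range B, (1 / 2 ^ b : ℝ) ≤ 2 - 2 / 2 ^ B := by
      intro B
      induction B with
      | zero => simp
      | succ B ih =>
        rw [Finset.sum_range_succ]
        have : (2:ℝ) / 2 ^ (B + 1) = 1 / 2 ^ B := by rw [pow_succ]; field_simp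
        rw [this]
        have h10 : (2:ℝ) / 2 ^ B = 2 * (1 / 2 ^ B) := by ring
        rw [h10] at ih
        linarith
    have h11 := this (M + 1)
    have h12 : (0:ℝ) ≤ 2 / 2 ^ (M + 1) := by positivity
    linarith
  nlinarith


lemma xx_isLp {p : ℝ} (hp : 1 < p) (n : ℕ) : IsLp p (xx p n) := by
  have hp0 : (0:ℝ) < p := by linarith
  apply summable_of_ne_finset_zero (s := range n)
  intro j hj
  have hj' : n ≤ j := by simpa using hj
  rw [xx_zero_early hj', abs_zero, Real.zero_rpow hp0.ne']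

lemma xx_buoCauchy {p : ℝ} (hp : 1 < p) : BuoCauchy p (xx p) := by
  classical
  intro n hn
  have hp0 : (0:ℝ) < p := by linarith
  obtain ⟨C, hC, htot⟩ := total_jump hp
  set D : ℕ → ℕ → ℝ := fun k j => |xx p (n (k + 1)) j - xx p (n k) j| ^ p with hD
  have hD0 : ∀ k j, 0 ≤ D k j := fun k j => Real.rpow_nonneg (abs_nonneg _) _
  have hJK : ∀ J K, ∑ j ∈ range J, ∑ k ∈ range K, D k j ≤ C := by
    intro J K
    refine le_trans ?_ (htot n hn.monotone J K)
    apply Finset.sum_le_sum_of_subset_of_nonneg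
    · intro j hj
      have h1 := Finset.mem_range.mp hj
      exact Finset.mem_range.mpr (h1.trans Nat.lt_two_pow_self)
    · intro j _ _
      exact Finset.sum_nonneg fun k _ => hD0 k j
  have hsk : ∀ j, Summable fun k => D k j := by
    intro j
    apply summable_of_sum_range_le (fun k => hD0 k j) (c := C)
    intro K
    refine le_trans ?_ (hJK (j + 1) K)
    exact Finset.single_le_sum (f := fun j => ∑ k ∈ range K, D k j)
      (fun j _ => Finset.sum_nonneg fun k _ => hD0 k j) (Finset.mem_range.mpr (Nat.lt_succ_self j))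
  set Y : ℕ → ℝ := fun j => ∑' k, D k j with hY
  have hY0 : ∀ j, 0 ≤ Y j := fun j => tsum_nonneg fun k => hD0 k j
  have hYs : Summable Y := by
    apply summable_of_sum_range_le hY0 (c := C)
    intro J
    have h1 : ∑ j ∈ range J, Y j = ∑' k, ∑ j ∈ range J, D k j :=
      (Summable.tsum_finsetSum fun j _ => hsk j).symm
    rw [h1]
    apply Real.tsum_le_of_sum_range_le
    · intro k
      exact Finset.sum_nonneg fun j _ => hD0 k j
    · intro K
      rw [Finset.sum_comm]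
      exact hJK J K
  set y : ℕ → ℝ := fun j => (Y j) ^ (1 / p) with hy
  have hy0 : ∀ j, 0 ≤ y j := fun j => Real.rpow_nonneg (hY0 j) _
  have hyp : ∀ j, |y j| ^ p = Y j := by
    intro j
    rw [abs_of_nonneg (hy0 j), hy]
    simp only
    rw [← Real.rpow_mul (hY0 j)]
    have : 1 / p * p = 1 := by field_simp
    rw [this, Real.rpow_one]
  have hdom : ∀ k j, |xx p (n (k + 1)) j - xx p (n k) j| ≤ y j := by
    intro k j
    have h1 : D k j ≤ Y j := (hsk j).le_tsum k fun k' _ => hD0 k' j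
    have h2 : (D k j) ^ (1 / p) ≤ y j := Real.rpow_le_rpow (hD0 k j) h1 (by positivity)
    have h3 : (D k j) ^ (1 / p) = |xx p (n (k + 1)) j - xx p (n k) j| := by
      rw [hD]
      simp only
      rw [← Real.rpow_mul (abs_nonneg _)]
      have : p * (1 / p) = 1 := by field_simp
      rw [this, Real.rpow_one]
    rw [← h3]
    exact h2
  refine ⟨fun m j => if (∀ k, m ≤ k → xx p (n (k + 1)) j = xx p (n k) j) then 0 else y j,
    ?_, ?_, ?_, ?_, ?_⟩
  · intro m
    refine Summable.of_nonneg_of_le (fun j => Real.rpow_nonneg (abs_nonneg _) _) (fun j => ?_) hYs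
    dsimp only
    split_ifs with h
    · rw [abs_zero, Real.zero_rpow hp0.ne']
      exact hY0 j
    · exact (hyp j).le
  · intro m j
    dsimp only
    split_ifs with h
    · exact le_rfl
    · exact hy0 j
  · intro m j
    dsimp only
    by_cases h : ∀ k, m ≤ k → xx p (n (k + 1)) j = xx p (n k) j
    · have h' : ∀ k, m + 1 ≤ k → xx p (n (k + 1)) j = xx p (n k) j := fun k hk => h k (by omega)
      rw [if_pos h, if_pos h']
    · rw [if_neg h]
      split_ifs with h'
      · exact hy0 j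
      · exact le_rfl
  · intro w _ hw j
    have h1 := hw (2 * NN (bl (lv j))) j
    have h2 : ∀ k, 2 * NN (bl (lv j)) ≤ k → xx p (n (k + 1)) j = xx p (n k) j := by
      intro k hk
      have h3 : k ≤ n k := hn.id_le k
      have h4 : k + 1 ≤ n (k + 1) := hn.id_le (k + 1)
      rw [xx_zero_late (by omega), xx_zero_late (by omega)]
    dsimp only at h1
    rw [if_pos h2] at h1
    exact h1
  · intro m
    refine ⟨m, fun k hk j => ?_⟩
    dsimp only
    rw [sub_zero]
    split_ifs with h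
    · rw [h k hk, sub_self, abs_zero]
    · exact hdom k j

lemma not_summable_ht {p : ℝ} (hp : 1 < p) :
    ¬ Summable fun j : ℕ => if j = 0 then (0:ℝ) else (ht p (lv j)) ^ p := by
  intro hs
  set F : ℕ → ℝ := fun j : ℕ => if j = 0 then (0:ℝ) else (ht p (lv j)) ^ p with hF
  have hF0 : ∀ j, 0 ≤ F j := by
    intro j
    rw [hF]
    dsimp only
    split_ifs
    · exact le_rfl
    · exact Real.rpow_nonneg (ht_nonneg p _) _
  have h1 : ∀ M : ℕ, ∑ l ∈ range M, 1 / ((l : ℝ) + 1) ≤ ∑' j, F j := by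
    intro M
    have h2 : ∑ j ∈ range (2 ^ M), F j ≤ ∑' j, F j := hs.sum_le_tsum _ fun j _ => hF0 j
    refine le_trans ?_ h2
    rw [dyadic_sum F (by simp [hF]) M]
    apply Finset.sum_le_sum
    intro l _
    have h3 : ∀ i ∈ range (2 ^ l), F (2 ^ l + i) = 1 / 2 ^ (bl l) / 2 ^ l := by
      intro i hi
      have hpos : 0 < 2 ^ l := by positivity
      rw [hF]
      dsimp only
      rw [if_neg (by omega), lv_add (Finset.mem_range.mp hi), ht_pow hp]
    rw [Finset.sum_congr rfl h3, Finset.sum_const, Finset.card_range, nsmul_eq_mul]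
    push_cast
    have h4 : (2:ℝ) ^ l * (1 / 2 ^ bl l / 2 ^ l) = 1 / 2 ^ bl l := by field_simp
    rw [h4]
    apply one_div_le_one_div_of_le (by positivity)
    have h5 : 2 ^ (bl l) ≤ l + 1 := Nat.pow_log_le_self 2 (by omega)
    exact_mod_cast h5
  have h6 := Real.tendsto_sum_range_one_div_nat_succ_atTop
  obtain ⟨M, hM⟩ := (h6.eventually (Filter.eventually_gt_atTop (∑' j, F j))).exists
  have := h1 M
  linarith

/-- For `1 < p` the Banach lattice `ℓ_p` is not sequentially Buo-complete: there is a Buo-Cauchy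
sequence in `ℓ_p` which has no order limit in `ℓ_p`. -/
theorem result (p : ℝ) (hp : 1 < p) :
    ∃ x : ℕ → ℕ → ℝ, (∀ n, IsLp p (x n)) ∧ BuoCauchy p x ∧
      ¬ ∃ y : ℕ → ℝ, IsLp p y ∧ OrderTendsto p x y := by
  refine ⟨xx p, xx_isLp hp, xx_buoCauchy hp, ?_⟩
  rintro ⟨y, _, z, hz, hz0, _, _, hN⟩
  have hp0 : (0:ℝ) < p := by linarith
  obtain ⟨N, hN⟩ := hN 0
  have hyz : ∀ j, |y j| ≤ z 0 j := by
    intro j
    have := hN (max N (2 * NN (bl (lv j)))) (le_max_left _ _) j
    rw [xx_zero_late (le_max_right _ _), zero_sub, abs_neg] at this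
    exact this
  have hh : ∀ j, N ≤ j → j ≠ 0 → ht p (lv j) ≤ 2 * z 0 j := by
    intro j hj hj0
    obtain ⟨n, hn, hx⟩ := xx_peak (p := p) hj0
    have h1 := hN n (hj.trans hn) j
    have h2 := hyz j
    rw [hx] at h1
    have h3 := abs_le.mp h1
    have h4 := abs_le.mp h2
    linarith [h3.2, h4.2]
  apply not_summable_ht hp
  rw [← summable_nat_add_iff N]
  have hz' : Summable fun j => 2 ^ p * |z 0 (j + N)| ^ p :=
    ((summable_nat_add_iff N).mpr (hz 0)).mul_left _
  refine Summable.of_nonneg_of_le (fun j => ?_) (fun j => ?_) hz'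
  · split_ifs
    · exact le_rfl
    · exact Real.rpow_nonneg (ht_nonneg p _) _
  · split_ifs with h
    · exact mul_nonneg (Real.rpow_nonneg (by norm_num) _) (Real.rpow_nonneg (abs_nonneg _) _)
    · rw [← Real.mul_rpow (by norm_num) (abs_nonneg _)]
      apply Real.rpow_le_rpow (ht_nonneg p _) _ hp0.le
      rw [abs_of_nonneg (hz0 0 _)]
      exact hh (j + N) (by omega) h

end Pool.Agent.Results.MP_55c50e_an.NotBuoComplete
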